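import Mathlib
import Pool.Agent.H19.SSepF

namespace Pool.Agent.Results.MP_656a26_gt.FreeNotSSep

open TopologicalSpace

/-- Every closed subgroup of the topological group `H` is separable in its subspace topology. -/
def ClosedSubgroupsSeparable (H : Type) [Group H] [TopologicalSpace H] : Prop :=
  ∀ K : Subgroup H, IsClosed (K : Set H) → SeparableSpace K

/-- The topological group `G` is S-separable: for every Hausdorff topological group `H` all of
whose closed subgroups are separable, all closed subgroups of `G × H` are separable. -/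
def SSeparable (G : Type) [Group G] [TopologicalSpace G] : Prop :=
  ∀ (H : Type) [Group H] [TopologicalSpace H] [IsTopologicalGroup H] [T2Space H],
    ClosedSubgroupsSeparable H → ClosedSubgroupsSeparable (G × H)

/-- The group topologies on the abstract free group on `X` whose restriction to `X` is the given
topology of `X`. -/
def ExtendingGroupTopologies (X : Type) [tX : TopologicalSpace X] :
    Set (TopologicalSpace (FreeGroup X)) :=
  {σ | @IsTopologicalGroup (FreeGroup X) σ _ ∧ σ.induced (FreeGroup.of : X → FreeGroup X) = tX}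

/-- The free topological group (in the sense of Markov) on the unit interval, i.e. the abstract
free group with the finest group topology that restricts to the original topology of the unit
interval (which exists), is not S-separable. -/
theorem result : ∃ τ : TopologicalSpace (FreeGroup (Set.Icc (0 : ℝ) 1)),
    IsLeast (ExtendingGroupTopologies (Set.Icc (0 : ℝ) 1)) τ ∧
      ¬ @SSeparable (FreeGroup (Set.Icc (0 : ℝ) 1)) _ τ := by
  classical
  let I : Type := Set.Icc (0 : ℝ) 1
  let F : FreeGroup I →* Multiplicative ℝ :=
    FreeGroup.lift (fun x : I => Multiplicative.ofAdd (x : ℝ))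
  let σ₀ : TopologicalSpace (FreeGroup I) := TopologicalSpace.induced F inferInstance
  have hσ₀ : σ₀ ∈ ExtendingGroupTopologies I := by
    refine ⟨topologicalGroup_induced F, ?_⟩
    show TopologicalSpace.induced _ (TopologicalSpace.induced F _) = _
    rw [induced_compose]
    have h1 : (F ∘ (FreeGroup.of : I → FreeGroup I)) =
        fun x : I => Multiplicative.ofAdd (x : ℝ) := by
      funext x
      exact FreeGroup.lift_apply_of
    rw [h1]
    rfl
  let τ : TopologicalSpace (FreeGroup I) := sInf (ExtendingGroupTopologies I)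
  have hτ : IsLeast (ExtendingGroupTopologies I) τ := by
    refine ⟨⟨topologicalGroup_sInf fun σ hσ => hσ.1, ?_⟩, fun σ hσ => sInf_le hσ⟩
    apply le_antisymm
    · rw [← hσ₀.2]
      exact induced_mono (sInf_le hσ₀)
    · rw [← continuous_iff_le_induced]
      rw [continuous_sInf_rng]
      intro σ hσ
      rw [continuous_iff_le_induced, hσ.2]
  refine ⟨τ, hτ, ?_⟩
  intro hS
  obtain ⟨H, _, _, _, _, hK, L, hL, hLs⟩ := Pool.Agent.H19.SSep.main_mul
  let : TopologicalSpace (FreeGroup I) := τ
  have hF : Continuous F := by
    rw [continuous_iff_le_induced]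
    exact sInf_le hσ₀
  have hFs : Function.Surjective F := by
    intro r
    have h2 : ∀ x : ℝ, 0 ≤ x → ∃ w, F w = Multiplicative.ofAdd x := by
      intro x hx
      obtain ⟨n, hn⟩ := exists_nat_gt x
      have hn0 : (0 : ℝ) < n := lt_of_le_of_lt hx hn
      have hmem : x / n ∈ Set.Icc (0 : ℝ) 1 :=
        ⟨by positivity, by rw [div_le_one hn0]; exact hn.le⟩
      refine ⟨(FreeGroup.of (⟨x / n, hmem⟩ : I)) ^ n, ?_⟩
      rw [map_pow]
      have h3 : F (FreeGroup.of (⟨x / n, hmem⟩ : I)) = Multiplicative.ofAdd (x / n) :=
        FreeGroup.lift_apply_of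
      rw [h3, ← ofAdd_nsmul, nsmul_eq_mul, mul_div_cancel₀ _ hn0.ne']
    rcases le_total 0 (Multiplicative.toAdd r) with h | h
    · exact h2 _ h
    · obtain ⟨w, hw⟩ := h2 (-(Multiplicative.toAdd r)) (by linarith)
      refine ⟨w⁻¹, ?_⟩
      rw [map_inv, hw, ← ofAdd_neg, neg_neg]
      rfl
  have h3 := hS H (fun K _ => hK K)
  let Fid : FreeGroup I × H →* Multiplicative ℝ × H := F.prodMap (MonoidHom.id H)
  have hFid : Continuous Fid := (hF.comp continuous_fst).prodMk continuous_snd
  let L' : Subgroup (FreeGroup I × H) := L.comap Fid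
  have hL' : IsClosed (L' : Set (FreeGroup I × H)) := hL.preimage hFid
  have hsep := h3 L' hL'
  apply hLs
  let f : L' → L := fun x => ⟨Fid (x : FreeGroup I × H), x.2⟩
  have hf : Continuous f := Continuous.subtype_mk (hFid.comp continuous_subtype_val) _
  have hfs : Function.Surjective f := by
    rintro ⟨⟨r, h⟩, hy⟩
    obtain ⟨w, rfl⟩ := hFs r
    exact ⟨⟨(w, h), hy⟩, rfl⟩
  exact hfs.denseRange.separableSpace hf

end Pool.Agent.Results.MP_656a26_gt.FreeNotSSep
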